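import Pool.Agent.Helper86.QA.St1

/-!
Project QD, part A, module KRN: mass of the kernel.
-/

set_option autoImplicit false

open MeasureTheory Matrix Set Topology
open scoped ENNReal ComplexConjugate

namespace Pool.Agent.Helper8.QA

open Pool.Agent.Helper86.QA

private theorem oo_up : oo ∈ up := by
  show (0 : ℝ) < (oo : Pt).2
  simp [oo]

private theorem kk_nonneg (x y : Pt) : 0 ≤ kk x y := by
  unfold kk
  split_ifs <;> norm_num

private theorem kk_meas (hCHI : StCHI) (x : Pt) : Measurable (kk x) := by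
  obtain ⟨-, -, -, -, -, h⟩ := hCHI
  have h2 : Measurable (fun y : Pt => ((x, y) : Pt × Pt)) := measurable_prodMk_left
  have h3 := h.comp h2
  exact h3

private theorem ll_pos : 0 < ll := by
  unfold ll
  positivity

private theorem fin_oo (hCHI : StCHI) (hVOL : StVOL) :
    ∫⁻ y, ENNReal.ofReal (kk oo y) ∂vol < ∞ := by
  obtain ⟨K, hK⟩ : ∃ K : Set Pt, K = Metric.closedBall (0 : ℂ) (2 * ll + 1) ×ˢ Icc (1 / ll) ll :=
    ⟨_, rfl⟩
  have hKc : IsCompact K := by
    rw [hK]
    exact (isCompact_closedBall _ _).prod isCompact_Icc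
  have hKu : K ⊆ up := by
    rw [hK]
    rintro y ⟨-, hy⟩
    exact lt_of_lt_of_le (by have := ll_pos; positivity) hy.1
  have h1 := hVOL.2.2.2 K hKc hKu
  have h2 : ∫⁻ y, ENNReal.ofReal (kk oo y) ∂vol ≤ ∫⁻ y, K.indicator (fun _ => (1 : ℝ≥0∞)) y ∂vol := by
    refine lintegral_mono_ae ?_
    filter_upwards [ae_up] with y hy
    by_cases hc : ch oo y ≤ 2
    · have hyK : y ∈ K := by
        obtain ⟨a, b, c⟩ := hCHI.2.2.2.1 oo oo_up y hy hc
        have e1 : (oo : Pt).2 = 1 := rfl
        have e2 : (oo : Pt).1 = 0 := rfl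
        rw [e1] at a b c
        rw [e2, zero_sub, norm_neg] at c
        rw [mul_one] at a c
        have hl := ll_pos
        rw [hK]
        refine ⟨?_, ?_, a⟩
        · rw [mem_closedBall_zero_iff]
          nlinarith [norm_nonneg y.1, sq_nonneg (‖y.1‖ - 1)]
        · rw [div_le_iff₀ hl]
          linarith
      rw [indicator_of_mem hyK]
      unfold kk
      rw [if_pos hc, ENNReal.ofReal_one]
    · have : kk oo y = 0 := by
        unfold kk
        rw [if_neg hc]
      rw [this, ENNReal.ofReal_zero]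
      exact zero_le
  refine lt_of_le_of_lt h2 ?_
  rw [lintegral_indicator_const hKc.measurableSet, one_mul]
  exact h1

private theorem pos_oo (hCHI : StCHI) : 0 < ∫⁻ y, ENNReal.ofReal (kk oo y) ∂vol := by
  rw [pos_iff_ne_zero]
  intro h0
  obtain ⟨f, hf⟩ : ∃ f : Pt → ℝ, f = fun y => ‖y.1‖ ^ 2 + 1 + y.2 ^ 2 - 4 * y.2 := ⟨_, rfl⟩
  have hfc : Continuous f := by
    rw [hf]
    fun_prop
  obtain ⟨U, hU⟩ : ∃ U : Set Pt, U = up ∩ {y | f y < 0} := ⟨_, rfl⟩
  have hUo : IsOpen U := by
    rw [hU]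
    exact up_open.inter (isOpen_lt hfc continuous_const)
  have hUn : U.Nonempty := by
    refine ⟨oo, ?_⟩
    rw [hU]
    refine ⟨oo_up, ?_⟩
    show f oo < 0
    rw [hf]
    simp only [oo]
    norm_num
  have hUk : ∀ y ∈ U, kk oo y = 1 := by
    intro y hy
    rw [hU] at hy
    obtain ⟨hyu, hyf⟩ := hy
    have hyu' : 0 < y.2 := hyu
    have hyf' : f y < 0 := hyf
    rw [hf] at hyf'
    have h1 : ch oo y ≤ 2 := by
      unfold ch oo
      simp only [zero_sub, norm_neg, one_pow, mul_one]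
      rw [div_le_iff₀ (by positivity)]
      simp only at hyf'
      linarith
    unfold kk
    rw [if_pos h1]
  have h1 : vol U = 0 := by
    have h2 : ∫⁻ y, U.indicator (fun _ => (1 : ℝ≥0∞)) y ∂vol ≤
        ∫⁻ y, ENNReal.ofReal (kk oo y) ∂vol := by
      refine lintegral_mono fun y => ?_
      by_cases hy : y ∈ U
      · rw [indicator_of_mem hy, hUk y hy, ENNReal.ofReal_one]
      · rw [indicator_of_notMem hy]
        exact zero_le
    rw [h0, lintegral_indicator_const hUo.measurableSet, one_mul] at h2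
    exact le_antisymm h2 zero_le
  have hUup : U ⊆ up := by
    rw [hU]
    exact inter_subset_left
  unfold vol at h1
  rw [withDensity_apply_eq_zero (by fun_prop)] at h1
  have h3 : U ⊆ {x : Pt | ENNReal.ofReal (1 / x.2 ^ 3) ≠ 0} ∩ U := by
    intro y hy
    refine ⟨?_, hy⟩
    have hy2 : 0 < y.2 := hUup hy
    show ENNReal.ofReal (1 / y.2 ^ 3) ≠ 0
    rw [ne_eq, ENNReal.ofReal_eq_zero, not_le]
    positivity
  have h4 := measure_mono_null h3 h1
  rw [Measure.restrict_apply hUo.measurableSet, inter_eq_self_of_subset_left hUup] at h4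
  exact (hUo.measure_pos volume hUn).ne' h4

theorem hKRN (hACT : StACT) (hCHI : StCHI) (hVOL : StVOL) : StKRN := by
  have hfin := fin_oo hCHI hVOL
  have hpos := pos_oo hCHI
  have hVV : VV = (∫⁻ y, ENNReal.ofReal (kk oo y) ∂vol).toReal := by
    unfold VV
    exact integral_eq_lintegral_of_nonneg_ae (Filter.Eventually.of_forall (kk_nonneg oo))
      (kk_meas hCHI oo).aestronglyMeasurable
  have hVVp : 0 < VV := by
    rw [hVV]
    exact ENNReal.toReal_pos hpos.ne' hfin.ne
  have hVVe : ∫⁻ y, ENNReal.ofReal (kk oo y) ∂vol = ENNReal.ofReal VV := by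
    rw [hVV, ENNReal.ofReal_toReal hfin.ne]
  have hx : ∀ x ∈ up, ∫⁻ y, ENNReal.ofReal (kk x y) ∂vol = ENNReal.ofReal VV := by
    intro x hx
    have hg : ga (gx x hx) oo = x := by
      rw [hACT.2.2.2.2.1 x hx oo]
      simp [oo]
    have h1 := hVOL.2.1 (gx x hx) (fun y => ENNReal.ofReal (kk x y))
      (ENNReal.measurable_ofReal.comp (kk_meas hCHI x))
    rw [← h1, ← hVVe]
    refine lintegral_congr_ae ?_
    filter_upwards [ae_up] with y hy
    have h2 := (hCHI.2.1 (gx x hx) oo oo_up y hy).2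
    rw [hg] at h2
    rw [h2]
  refine ⟨hVVp, hx, ?_⟩
  intro x hxu
  have hint : Integrable (kk x) vol := by
    refine ⟨(kk_meas hCHI x).aestronglyMeasurable, ?_⟩
    rw [hasFiniteIntegral_iff_ofReal (Filter.Eventually.of_forall (kk_nonneg x)), hx x hxu]
    exact ENNReal.ofReal_lt_top
  refine ⟨hint, ?_⟩
  rw [integral_eq_lintegral_of_nonneg_ae (Filter.Eventually.of_forall (kk_nonneg x))
    (kk_meas hCHI x).aestronglyMeasurable, hx x hxu, ENNReal.toReal_ofReal hVVp.le]

end Pool.Agent.Helper8.QA
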